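import Mathlib
import Pool.Agent.Helper20.Pebble.Hard

/-!
# Moving pebbles onto a visibility clique with one hop is NP-complete

The definitions of the problem are in `Pool.Agent.Helper20.Pebble.Defs`: simple polygons
(`IsSimple`), the closed region bounded by a polygon (`region`, even-odd rule), the visibility graph
(`visGraph`), the existence of a feasible final configuration of cost at most `h` (`Feasible`) and
the language `CliqueMaxHop h` of the strings that write down an instance with such a configuration.
NP and polynomial-time many-one reductions are those of `Pool.Agent.Helper96.Complexity`.

The reduction is from 3-SAT. All vertices but the tips of the spikes lie on or slightly above the
parabola `y = x ^ 2`. For every literal there is a group of windows, one for each pebble; the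
groups of `x` and `not x` are separated by a tooth, all other pairs of groups see each other. Behind
each window there is a spike; its tip sees only the two vertices of the window and the targets of
the pebble in a clause gadget. A clause gadget has four vertices `A`, `B`, `C`, `D` in this order,
with teeth between `A`, `B` and between `C`, `D`; its three pebbles have the targets `{B, C}`,
`{A}` and `{D}`, so that not all three can be moved to their targets.
-/

set_option autoImplicit false

namespace Pool.Agent.Results.MP_944f26_lc.OneHopCliqueNPComplete

open Pool.Agent.Helper20.Pebble Pool.Agent.Helper96

/-- **Main theorem.** Deciding whether an instance of CLIQUE-MAX with respect to the hop distance
has a feasible final configuration of cost at most `1` is NP-complete. -/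
theorem result : NPComplete (CliqueMaxHop 1) := cliqueMaxHop_npComplete

end Pool.Agent.Results.MP_944f26_lc.OneHopCliqueNPComplete
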